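import Mathlib

namespace Pool.Agent.H.MP_97c21f_co

/-- Row sum number 3 in reduced variables. -/
def G3 (e v X Y Z : ℂ) : ℂ :=
  4*e + 1*X + 16

/-- Row sum number 4 in reduced variables. -/
def G4 (e v X Y Z : ℂ) : ℂ :=
  8*e^2 + 3*e*X + 48*e + 1*v*X + 12*X + 4*Y + 64

/-- Row sum number 5 in reduced variables. -/
def G5 (e v X Y Z : ℂ) : ℂ :=
  24*e^3 + 11*e^2*X + 176*e^2 + 6*e*v*X + 72*e*X + 28*e*Y + 384*e + 1*v^2*X + 16*v*X + 4*v*Y +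
      3*X^2 + 4*X*Y + 2*X*Z + 96*X + 64*Y + 256

/-- Row sum number 6 in reduced variables. -/
def G6 (e v X Y Z : ℂ) : ℂ :=
  96*e^4 + 50*e^3*X + 800*e^3 + 35*e^2*v*X + 420*e^2*X + 184*e^2*Y + 2240*e^2 + 10*e*v^2*X +
      160*e*v*X + 44*e*v*Y + 30*e*X^2 + 45*e*X*Y + 20*e*X*Z + 960*e*X + 720*e*Y + 2560*e + 1*v^3*X +
      20*v^2*X + 4*v^2*Y + 10*v*X^2 + 15*v*X*Y + 8*v*X*Z + 160*v*X + 80*v*Y + 60*X^2 + 120*X*Y + 40*X*Z +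
      640*X + 28*Y^2 + 8*Y*Z + 640*Y + 1024

/-- Row sum number 7 in reduced variables. -/
def G7 (e v X Y Z : ℂ) : ℂ :=
  480*e^5 + 274*e^4*X + 4384*e^4 + 225*e^3*v*X + 2700*e^3*X + 1304*e^3*Y + 14400*e^3 + 85*e^2*v^2*X +
      1360*e^2*v*X + 404*e^2*v*Y + 255*e^2*X^2 + 421*e^2*X*Y + 170*e^2*X*Z + 8160*e^2*X + 6736*e^2*Y +
      21760*e^2 + 15*e*v^3*X + 300*e*v^2*X + 64*e*v^2*Y + 150*e*v*X^2 + 246*e*v*X*Y + 120*e*v*X*Z +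
      2400*e*v*X + 1296*e*v*Y + 900*e*X^2 + 1980*e*X*Y + 600*e*X*Z + 9600*e*X + 508*e*Y^2 + 128*e*Y*Z +
      10560*e*Y + 15360*e + 1*v^4*X + 24*v^3*X + 4*v^3*Y + 25*v^2*X^2 + 41*v^2*X*Y + 22*v^2*X*Z +
      240*v^2*X + 96*v^2*Y + 240*v*X^2 + 500*v*X*Y + 192*v*X*Z + 1280*v*X + 100*v*Y^2 + 32*v*Y*Z +
      960*v*Y + 15*X^3 + 60*X^2*Y + 30*X^2*Z + 720*X^2 + 52*X*Y^2 + 52*X*Y*Z + 1920*X*Y + 16*X*Z^2 +
      480*X*Z + 3840*X + 832*Y^2 + 192*Y*Z + 5120*Y + 4096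

lemma elim0 (e v Z : ℂ)
    (g5 : (-8)*e^3 + (-8)*e^2*v + 66*e^2 + 44*e*v + (-8)*e*Z + (-183)*e + (-61)*v + 22*Z + 170 = 0)
    (g6 : (-72)*e^4 + (-96)*e^3*v + 390*e^3 + (-24)*e^2*v^2 + 390*e^2*v + (-72)*e^2*Z + 42*e^2 + 132*e*v^2 +
      (-24)*e*v*Z + 28*e*v + (-6)*e*Z + (-3165)*e + (-182)*v^2 + 66*v*Z + (-1055)*v + 560*Z + 4368 = 0)
    (g7 : (-696)*e^5 + (-1160)*e^4*v + 4674*e^4 + (-520)*e^3*v^2 + 6232*e^3*v + (-760)*e^3*Z + (-13965)*e^3 +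
      (-56)*e^2*v^3 + 2658*e^2*v^2 + (-528)*e^2*v*Z + (-13965)*e^2*v + 1374*e^2*Z + (189459/4)*e^2 +
      308*e*v^3 + (-56)*e*v^2*Z + (-2834)*e*v^2 + 1272*e*v*Z + (63153/2)*e*v + (-64)*e*Z^2 +
      (-5463)*e*Z + (-136305)*e + (-424)*v^3 + 154*v^2*Z + (-6109/4)*v^2 + 491*v*Z + (-45435)*v +
      176*Z^2 + 20370*Z + 148278 = 0)
    (gC : 1*e^4 + 2*e^3*v + (-17/2)*e^3 + 1*e^2*v^2 + (-13)*e^2*v + 2*e^2*Z + (417/16)*e^2 + (-9/2)*e*v^2 +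
      2*e*v*Z + (217/8)*e*v + (-17/2)*e*Z + (-34)*e + (77/16)*v^2 + (-9/2)*v*Z + (-18)*v + 1*Z^2 + 9*Z +
      16 = 0)
    : v + 3 * e - 8 = 0 ∧ (e - 2) * (e - 3) ^ 2 = 0 := by
  constructor
  · linear_combination ((-24)*e^3*v + (-36)*e^3*Z + (-40)*e^3 + (-28)*e^2*v^2 + (-48)*e^2*v*Z + (163/6)*e^2*v +
      (431/6)*e^2*Z + (-3253/12)*e^2 + (-22/3)*e*v^3 + (-12)*e*v^2*Z + (3473/18)*e*v^2 + (545/18)*e*v*Z +
      (3427/36)*e*v + (-36)*e*Z^2 + (-1311/4)*e*Z + (7943/6)*e + (2/3)*v^4 + (625/9)*v^3 +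
      (169/9)*v^2*Z + (1547/9)*v^2 + (-12)*v*Z^2 + (-751/12)*v*Z + (-647/9)*v + (-829/9)*Z^2 +
      (-15665/18)*Z + (-1301/2)) * g5 +
      ((8/3)*e^2*v + 4*e^2*Z + (25/2)*e^2 + (-1)*e*v^2 +
      4*e*v*Z + (-25/3)*e*v + (-7)*e*Z + (-97/6)*e + (-1)*v^3 + (-39/2)*v^2 + (-25/6)*v*Z + (161/18)*v +
      4*Z^2 + (688/9)*Z + (-503/9)) * g6 +
      ((-5/6)*e + (1/3)*v^2 + (-1/9)*v + (-23/18)*Z +
      (43/18)) * g7 +
      ((-8/3)*e*v + (-8/3)*e*Z + (-10)*e + (-4)*v^2 + 4*v + (34/3)*Z + 30) * gC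
  · linear_combination ((-322/9)*e^3*v + (-63)*e^3*Z + (-28/3)*e^3 + (-1511/27)*e^2*v^2 + (-84)*e^2*v*Z +
      (37811/72)*e^2*v + (11471/72)*e^2*Z + (45997/48)*e^2 + (-701/54)*e*v^3 + (-21)*e*v^2*Z +
      (90409/216)*e*v^2 + (10385/216)*e*v*Z + (18257/144)*e*v + (-63)*e*Z^2 + (56491/144)*e*Z +
      (-6879/4)*e + (47/54)*v^4 + (11117/108)*v^3 + (3985/108)*v^2*Z + (6857/54)*v^2 + (-21)*v*Z^2 +
      (75787/432)*v*Z + (-36203/24)*v + (-19253/108)*Z^2 + (-33509/24)*Z +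
      (-8321/8)) * g5 +
      ((-16/3)*e^2*v + 7*e^2*Z + (-141/8)*e^2 + (-29/12)*e*v^2 + 7*e*v*Z +
      (-5477/108)*e*v + (-145/4)*e*Z + (-3037/72)*e + (-47/36)*v^3 + (-5767/216)*v^2 + (-105/8)*v*Z +
      (19787/216)*v + 7*Z^2 + (1634/27)*Z + (767/4)) * g6 +
      ((26/27)*e*v + (139/72)*e +
      (47/108)*v^2 + (-151/108)*v + (-31/216)*Z + (-107/24)) * g7 +
      ((-10)*e*v + (-22/3)*e*Z +
      (-15/2)*e + (-7)*v^2 + (47/3)*v + (163/6)*Z + (39/2)) * gC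

lemma elim (e v X Y Z : ℂ) (h3 : G3 e v X Y Z = 27) (h4 : G4 e v X Y Z = 256)
    (h5 : G5 e v X Y Z = 3125) (h6 : G6 e v X Y Z = 46656) (h7 : G7 e v X Y Z = 823543)
    (hC : Z = (X - Y - Z) * (v - (X - Y - Z))) :
    (e = 2 ∧ v = 2 ∧ X = 3 ∧ Y = 1 ∧ Z = 1) ∨ (X = -1 ∧ X - Y - Z = 0) := by
  unfold G3 at h3
  unfold G4 at h4
  unfold G5 at h5
  unfold G6 at h6
  unfold G7 at h7
  have hX : X = 11 - 4 * e := by linear_combination h3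
  subst hX
  have hY : Y = (256 - 27 * (4 + 2 * e) - (11 - 4 * e) * (8 + e + v)) / 4 := by
    linear_combination h4 / 4
  subst hY
  obtain ⟨a, b⟩ := elim0 e v Z (by linear_combination h5) (by linear_combination h6)
    (by linear_combination h7) (by linear_combination hC)
  have hv : v = 8 - 3 * e := by linear_combination a
  subst hv
  rcases mul_eq_zero.1 b with b | b
  · have he : e = 2 := by linear_combination b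
    subst he
    exact Or.inl ⟨rfl, by norm_num, by norm_num, by norm_num, by linear_combination h5 / 6⟩
  · have he : e = 3 := by linear_combination pow_eq_zero_iff two_ne_zero |>.1 b
    subst he
    exact Or.inr ⟨by norm_num, by linear_combination h5 / 2⟩

end Pool.Agent.H.MP_97c21f_co
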