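import Pool.Agent.H.MP_97c21f_co.Elim

namespace Pool.Agent.H.MP_97c21f_co

open Finset MvPolynomial

/-- The triangle generated by two coefficient functions. -/
noncomputable def T (p q : ℂ → ℂ → ℂ) : ℕ → ℕ → ℂ
  | 0, 0 => 1
  | 0, _ + 1 => 0
  | _ + 1, 0 => 0
  | m + 1, n + 1 => p m (n + 1 : ℕ) * T p q m (n + 1) + q m (n + 1 : ℕ) * T p q m n

/-- Ramanujan polynomials in Shor's form. -/
noncomputable def R (x : ℂ) : ℕ → ℕ → ℂ
  | 0, 0 => 1
  | 0, _ + 1 => 0
  | n + 1, 0 => (x + n + 1) * R x n 0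
  | n + 1, k + 1 => (x + n + 1) * R x n (k + 1) + (n + k + 1) * R x n k

lemma R_two (n : ℕ) : ∀ x : ℂ, R x (n + 1) 0 = (x + 1) * R (x + 1) n 0 ∧
    ∀ k : ℕ, R x (n + 1) (k + 1) = (x - k) * R (x + 1) n (k + 1) + (n + k + 1) * R (x + 1) n k := by
  induction n with
  | zero =>
    intro x
    refine ⟨by simp [R], fun k => ?_⟩
    cases k <;> simp [R]
  | succ n ih =>
    intro x
    obtain ⟨h0, h1⟩ := ih x
    refine ⟨?_, fun k => ?_⟩
    · rw [R, h0, R]; push_cast; ring
    · cases k with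
      | zero =>
        rw [R.eq_4 x, h0, h1 0, R.eq_4 (x + 1), R.eq_3 (x + 1)]; push_cast; ring
      | succ k =>
        rw [R.eq_4 x, h1 (k + 1), h1 k, R.eq_4 (x + 1), R.eq_4 (x + 1)]; push_cast; ring

lemma R_zero (x : ℂ) (n : ℕ) : ∀ k, n < k → R x n k = 0 := by
  induction n with
  | zero => intro k hk; obtain ⟨k, rfl⟩ : ∃ j, k = j + 1 := ⟨k - 1, by omega⟩; rfl
  | succ n ih =>
    intro k hk
    obtain ⟨k, rfl⟩ : ∃ j, k = j + 1 := ⟨k - 1, by omega⟩
    rw [R, ih _ (by omega), ih _ (by omega)]; ring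

lemma R_sum (n : ℕ) : ∀ x : ℂ, ∑ k ∈ range (n + 1), R x n k = (x + n + 1) ^ n := by
  induction n with
  | zero => intro x; simp [R]
  | succ n ih =>
    intro x
    obtain ⟨h0, h1⟩ := R_two n x
    rw [sum_range_succ', h0, sum_congr rfl fun k _ => h1 k, sum_add_distrib]
    have e : ∑ k ∈ range (n + 1), (x - k) * R (x + 1) n (k + 1) + (x + 1) * R (x + 1) n 0
        = ∑ k ∈ range (n + 1), (x + 1 - k) * R (x + 1) n k := by
      have := sum_range_succ' (fun k : ℕ => (x + 1 - k) * R (x + 1) n k) (n + 1)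
      rw [sum_range_succ, R_zero _ _ _ (Nat.lt_succ_self n), mul_zero, add_zero] at this
      rw [this]
      congr 1
      · exact sum_congr rfl fun k _ => by push_cast; ring
      · simp
    have e2 : ∑ k ∈ range (n + 1), (x + 1 - k) * R (x + 1) n k
        + ∑ k ∈ range (n + 1), ((n : ℂ) + k + 1) * R (x + 1) n k
        = (x + n + 2) * ∑ k ∈ range (n + 1), R (x + 1) n k := by
      rw [← sum_add_distrib, mul_sum]
      exact sum_congr rfl fun k _ => by ring
    rw [ih] at e2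
    push_cast
    linear_combination e + e2

lemma T_eq_R (m : ℕ) : ∀ n, T (fun a _ => a) (fun a b => a + b) m n = R (-1) m n := by
  induction m with
  | zero => intro n; cases n <;> rfl
  | succ m ih =>
    intro n
    cases n with
    | zero =>
      rw [R, ← ih]
      cases m <;> simp [T]
    | succ n => rw [T, R, ih, ih]; push_cast; ring

lemma shor (m : ℕ) (hm : 1 ≤ m) :
    ∑ n ∈ Icc 1 m, T (fun a _ => a) (fun a b => a + b) m n = (m : ℂ) ^ m := by
  have := R_sum m (-1)
  rw [sum_range_succ', ← T_eq_R] at this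
  obtain ⟨k, rfl⟩ : ∃ j, m = j + 1 := ⟨m - 1, by omega⟩
  rw [T, add_zero] at this
  rw [← Finset.Ico_add_one_right_eq_Icc, sum_Ico_eq_sum_range]
  simp only [T_eq_R, add_tsub_cancel_right, add_comm 1]
  rw [this]
  congr 1
  ring

lemma uniq (a0 a1 a2 b0 b1 b2 : ℂ)
    (h : ∀ m : ℕ, 1 ≤ m → ∑ n ∈ Icc 1 m,
      T (fun x y => a0 + a1 * x + a2 * y) (fun x y => b0 + b1 * x + b2 * y) m n = (m : ℂ) ^ m) :
    a0 = 0 ∧ a1 = 1 ∧ a2 = 0 ∧ b0 = 0 ∧ b1 = 1 ∧ b2 = 1 := by
  have h1 := h 1 (by norm_num)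
  have h2 := h 2 (by norm_num)
  have h3 := h 3 (by norm_num)
  have h4 := h 4 (by norm_num)
  have h5 := h 5 (by norm_num)
  have h6 := h 6 (by norm_num)
  have h7 := h 7 (by norm_num)
  simp only [sum_Icc_succ_top, Nat.reduceLeDiff, Nat.reduceAdd, zero_add, Icc_self,
    sum_singleton, T, mul_zero, add_zero, mul_one] at h1 h2 h3 h4 h5 h6 h7
  push_cast at h1 h2 h3 h4 h5 h6 h7
  obtain rfl : b0 = 1 - b2 := by linear_combination h1
  obtain rfl : a0 = 3 - a1 - b1 - a2 - b2 := by linear_combination h2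
  have := elim (a1 + b1) (a2 + 2 * b2) ((a2 + b2) * (1 + b1 + b2)) ((a2 + b2) * b1) ((a2 + b2) * b2)
    (by unfold G3; linear_combination h3) (by unfold G4; linear_combination h4)
    (by unfold G5; linear_combination h5) (by unfold G6; linear_combination h6)
    (by unfold G7; linear_combination h7) (by ring)
  rcases this with ⟨e1, e2, e3, e4, e5⟩ | ⟨e1, e2⟩
  · have hu : a2 + b2 = 1 := by linear_combination e3 - e4 - e5
    rw [hu] at e4 e5
    have c1 : b1 = 1 := by linear_combination e4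
    have c2 : b2 = 1 := by linear_combination e5
    subst c1 c2
    refine ⟨by linear_combination -e1 - hu, by linear_combination e1, by linear_combination hu,
      by ring, rfl, rfl⟩
  · have hu : a2 + b2 = 0 := by linear_combination e2
    rw [hu] at e1
    norm_num at e1

lemma lin_form (P : MvPolynomial (Fin 2) ℂ) (hP : P.totalDegree ≤ 1) :
    ∃ a0 a1 a2 : ℂ, P = C a0 + C a1 * X 0 + C a2 * X 1 := by
  refine ⟨coeff 0 P, coeff (Finsupp.single 0 1) P, coeff (Finsupp.single 1 1) P, ?_⟩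
  have n01 : (Finsupp.single 0 1 : Fin 2 →₀ ℕ) ≠ Finsupp.single 1 1 := fun h => by
    simpa using DFunLike.congr_fun h 0
  have n0 : (0 : Fin 2 →₀ ℕ) ≠ Finsupp.single 0 1 := fun h => by
    simpa using DFunLike.congr_fun h 0
  have n1 : (0 : Fin 2 →₀ ℕ) ≠ Finsupp.single 1 1 := fun h => by
    simpa using DFunLike.congr_fun h 1
  ext d
  simp only [coeff_add, coeff_C, coeff_C_mul, coeff_X]
  by_cases h0 : 0 = d
  · subst h0; simp [n0.symm, n1.symm]
  by_cases h1 : Finsupp.single 0 1 = d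
  · subst h1; simp [n0, n01.symm]
  by_cases h2 : Finsupp.single 1 1 = d
  · subst h2; simp [n1, n01]
  simp only [h0, h1, h2, if_false, mul_zero, add_zero]
  apply coeff_eq_zero_of_totalDegree_lt
  have e : ∑ i ∈ d.support, d i = d 0 + d 1 := by
    rw [← Fin.sum_univ_two]
    exact sum_subset (subset_univ _) fun i _ hi => by simpa using hi
  rw [e]
  by_contra hc
  have hle : d 0 + d 1 ≤ 1 := by omega
  have key : ∀ f : Fin 2 →₀ ℕ, f 0 = d 0 → f 1 = d 1 → f = d := fun f a b => by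
    ext i; fin_cases i <;> assumption
  by_cases z0 : d 0 = 0
  · by_cases z1 : d 1 = 0
    · exact h0 (key _ (by simp [z0]) (by simp [z1]))
    · exact h2 (key _ (by simp [z0]) (by simp; omega))
  · exact h1 (key _ (by simp; omega) (by simp; omega))

end Pool.Agent.H.MP_97c21f_co
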